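import Pool.Agent.Q69.Murre.Mot

/-!
# Murre's conjectures (A), (B), (C), (D) for all motives follow from (A) and (D) for varieties

`𝒱` is a class of smooth projective geometrically irreducible varieties over the field `k` closed
under products (for example all of them), `C` the Chow groups with rational coefficients (in the
form of their formal properties, `IsChowProj`) and `H` a Weil cohomology theory (`IsWeilProj`).

The following are equivalent:

* the conjectures (A), (B), (C), (D) hold for all motives `(X, p)`, `X` in `𝒱` (hence also for all
  twists `(X, p, n)`, for which the statements are the same up to renumbering);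
* every `X` in `𝒱` has one Chow-Kunneth decomposition `π` such that the equality of (D) holds for the
  induced decomposition of `X × X` in the middle codimension `dim X`;
* every motive `(X, p)` has a Chow-Kunneth decomposition, all of them satisfy (B) and (D), and all
  of them define the same filtration.

So the conjectures (B) and (C) are consequences of (A) and (D), for the motives of any class of
varieties closed under products, and only the middle-dimensional Chow groups of self-products matter
in (D). Motives are numbered cohomologically: `M_j` is the part with cohomology `H^j(M)`.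
-/

open CategoryTheory AlgebraicGeometry

set_option autoImplicit false

universe u v w

namespace Pool.Agent.Results.MP_38de51_ag.AllFromMiddleD

open Pool.Agent.H914 Pool.Agent.W492.BB Pool.Agent.TH133 Pool.Agent.Q69.Murre

/-- Murre's conjectures (A)-(D) hold for all motives `(X, p)` if and only if every variety `X` has a
Chow-Kunneth decomposition for which the middle-dimensional case of (D) holds for `X × X`. -/
theorem result {k : Type u} [Field k] {𝒱 : VarClass k} (C : TheoryData.{u, v, 0} 𝒱 ℚ)
    [IsChowProj C] {K : Type w} [Field K] (H : WeilTheoryData.{u, v, w} C K) [IsWeilProj H] :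
    [∀ (X : 𝒱.Obj) (p : C.A (X.prod X)), C.Deg X.dim p → C.comp p p = p → MurreConj H X p,
      ∀ X : 𝒱.Obj, ∃ π : ℕ → C.A (X.prod X), IsCK H X π ∧ MiddleD C H π,
      ∀ (X : 𝒱.Obj) (p : C.A (X.prod X)), C.Deg X.dim p → C.comp p p = p →
        (∃ q, IsCKOf H p q) ∧ ∀ q, IsCKOf H p q → MotB C q ∧ MotD H q ∧
          ∀ q', IsCKOf H p q' → ∀ (i : ℕ) (ν : ℤ), motFil C q i ν = motFil C q' i ν].TFAE := by
  tfae_have 1 → 2 := fun h => middleD_of_murreConj fun Y =>
    h Y _ (dg_mem C Y) (Pool.Agent.W550.Corr.comp_dg C _)
  tfae_have 2 → 3 := by
    intro h X p hp hpp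
    obtain ⟨π, hπ, hD⟩ := h X
    exact murreConj_of_SL (isCK_cr hπ) (SL_of_middle hπ hD) hp hpp
  tfae_have 3 → 1 := by
    intro h X p hp hpp
    obtain ⟨⟨q, hq⟩, h2⟩ := h X p hp hpp
    exact ⟨⟨q, hq, (h2 q hq).1, (h2 q hq).2.1⟩, fun q q' hq hq' => (h2 q hq).2.2 q' hq'⟩
  tfae_finish

end Pool.Agent.Results.MP_38de51_ag.AllFromMiddleD
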