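import Mathlib
import Pool.Agent.Q64.B.Mur
import Pool.Agent.Q64.L.InstC

/-!
# Murre's conjectures for the motives of classes of varieties over finite fields: abelian varieties
of almost all slope types of all CM fields

Let `K i` (`i` in a finite set) be CM fields of degree `2 g i`. Nothing is assumed about their
Galois groups. They are pairwise independent: for `i ≠ k` and all complex embeddings `φ` of `K i`
and `ψ` of `K k` some automorphism of `ℂ` is the identity on `φ (K i)` and the complex conjugation
on `ψ (K k)` (this is no condition if there is only one field). We fix an isomorphism `ν` of the
algebraic closure of `ℚ_p` with `ℂ`; it defines a `p`-adic valuation of `ℂ`, with the value one at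
`p`. Let `M i` be a function with nonzero integral values, all of which divide `n i`, on the
complex embeddings of `K i`, invariant under complex conjugation. A CM type `Φ i` of `K i` (a
choice of one element out of each complex conjugate pair of embeddings; there are `2 ^ (g i)`
types), `M i` and a real number `κ ≠ 0` prescribe the slopes `(a + κ M) / 2` (at the embeddings in
`Φ i`) and `(a - κ M) / 2` (outside of `Φ i`) of a Weil number for `p ^ a` in `K i` (`HasType`).
The case `M = 1`, `κ = a` is the case of ordinary abelian varieties; the assumption on `M` says
that `a / 2` is not a slope.

There are `2 ^ (∑ i, g i)` families of CM types `Φ i` of the fields `K i`. A family is exceptional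
(`exceptionalFamilies ν K M`) if the following statement (`Holds`) is false for it. Let `π i` be
Weil numbers for `q = p ^ a` that generate the fields `K i` and have the slope types `Φ i`, `M i`,
and let `f i` be monic polynomials whose complex roots are conjugates of `π i` (`IsPolyOf`), for
instance the characteristic polynomials of Frobenius of the abelian varieties in the isogeny
classes of the `π i` over the field with `q` elements. We consider the abelian varieties `A` over
the field with `Q = q ^ s` elements (`s > 0` fixed) which are isogenous to products of powers of
abelian varieties coming from the field with `q` elements, with characteristic polynomials `f i`.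
Let `𝒱` be **any** class of smooth projective varieties over the field with `Q` elements which is
closed under products and `𝒲` **any** subclass, closed under products, such that each variety of
the class `𝒱` is dominated by a product `A × Z`, where `A` is a variety of this kind in the class
`𝒱`, where `Z` belongs to `𝒲`, and where

* the eigenvalues `ρ` of Frobenius on the cohomology of `Z` and their conjugates are unrelated to
  the fields `K i` (`UnrelatedTo`): a function `n` on the complex embeddings of `K i` with
  `n (conj φ) = - n φ` which is invariant under all automorphisms of `ℂ` that fix a power of `ρ` is
  zero. This is so if for each embedding `ψ` of `K i` some automorphism which fixes a power of `ρ`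
  is the complex conjugation on `ψ (K i)`: for instance, if a power of `ρ` lies in a field linearly
  disjoint from the normal closures of the `K i`, or in a totally real field. It is also so if the
  degree of `ρ` is less than twice the dimension of each nonzero space of functions `n` stable
  under all automorphisms of `ℂ`.

**Murre's conjectures (A), (B), (C), (D) are true for all motives `(X, p, n)` with `X` in the class
`𝒱` if and only if they are true for all motives `(Z, p, n)` with `Z` in the class `𝒲`.** So Q1,
restricted to the motives of varieties in `𝒱`, is equivalent to Q1, restricted to the motives of
varieties in `𝒲`: the abelian varieties `A` may be removed. For instance, `𝒲` may be the class of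
the powers of one variety, and `𝒱` the class of all varieties dominated by products `A × Z`, `Z` in
`𝒲`. No case of the conjectures of Tate, Beilinson, Murre is assumed.

Here `IsChow`, `IsWeil`, `IsStandard`, `IsProjective` are the formal properties of the Chow groups
with rational coefficients and of a Weil cohomology theory `H` with coefficients in an
algebraically closed field, for the varieties of the class `𝒱` (`restrictWeil` is the restriction
of these data to `𝒲`), and `Murre` are the conjectures for the motive `(X, p)` (the twist `n` only
renumbers the groups). What is used besides are known theorems: `HasFrobenii` (the Frobenius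
endomorphism acts on `CH^i` as multiplication by `Q ^ i`, and the weights of its eigenvalues on
`H^j`, by Deligne), `IsAbelian` (`H(A)` is generated by `H^1`, Frobenius is diagonalizable on `H^1`
by Weil, and the theorem of Tate on divisors), and `kimura` (if rational and homological
equivalence coincide on all varieties of the class `𝒲`, the motives of the varieties of the class
`𝒱` are finite-dimensional, and homologically trivial self-correspondences are nilpotent).
`Dominated` says that there are a morphism `g : A × Z → X` and a class `w` on `A × Z` with
`g_* w = [X]`.

The theorem bounds the number of the exceptional families: it is at most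
`2 ^ (∑ i, g i) * ∑ i, C * (n i) ^ 2 * (1 + log (2 g i)) ^ 16 * min (N ^ 2 * D ^ (1 / 4) / √g, √g / q)`
with an absolute constant `C`. Here, for `K = K i` and `g = g i`, `N` is the number of the CM
subfields of `K` (with `K`), `D = D i ≥ 1` is a bound for the degrees of the CM subfields of `K`
that are normal over `ℚ` with a nonabelian Galois group, and `q = q i` is any prime factor of `g`
(or `q = 1`). So the exceptional types are a proportion `O (n ^ 2 * g ^ (-1 / 4) * (log g) ^ 16)`
of all types of all CM fields with a bounded number of CM subfields,
`O (n ^ 2 * g ^ (-1 / 2) * (log g) ^ 16)` if the normal nonabelian ones have bounded degrees, and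
`O (n ^ 2 * g ^ (-δ) * (log g) ^ 16)` for all CM fields, with any number of subfields, whose degree
is divisible by a prime number `q ≥ g ^ (1 / 2 + δ)`. Some assumption is necessary: almost all
types of a multiquadratic CM field are degenerate. The counting part (the bound for the number of
the degenerate types) is the one of `AllCMFields` (MP_e12fcd_ag), by helper1 and others of this
team.

Relation to other results. The theorem of helper69 on this problem (`AllFromMiddleD`, this folder)
is about all base fields; it reduces (A), (B), (C), (D) to (A) and a case of (D), and it is used
here. `ProductsNewtonStrata` and `ProductsAlmostAll` (this folder) are about almost all abelian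
varieties in given Newton strata, and about almost all abelian varieties of given dimensions. Over
finite fields the conjectures of Murre for a class of varieties are equivalent to the existence of
a Bloch-Beilinson filtration, and to the injectivity of the cycle class maps; the theorem for
filtrations is in MP_f4876d_ag, the one for rational and homological equivalence and single
products is from MP_4960c7_ag. New here are the passage from the injectivity to the conjectures of
Murre for all motives and back, for arbitrary classes, and the theorem above.

The proof. Suppose that the product of `ρ` and of some eigenvalues `φ (π i)` of `A`, no two of them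
complex conjugate, is a power of `q`, up to a root of unity. For an automorphism `σ` of `ℂ` the
`p`-adic valuations of the images under `σ` give a linear relation between the signed weights
`± M i (σ φ)` whose right side is a function of the valuation of `σ ρ`. It does not change if `σ`
is multiplied by an automorphism `τ` which fixes a power of `ρ`. The difference of the two
relations is homogeneous; if the types are not degenerate it is trivial, so that the differences of
the exponents of complex conjugate embeddings are invariant under `τ`. So they are zero, as `ρ` is
unrelated to the fields `K i`. It follows that the correspondence on `A` given by the sum of the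
products of dual classes of divisor products acts as the identity on the Chow groups of `A × Z`, if
homologically trivial self-correspondences of `A × Z` are nilpotent: the Frobenius endomorphism of
`A × Z` is the multiplication by `Q ^ i` on `CH^i`, so that the Frobenius endomorphism of `A`
satisfies a power of the polynomial reciprocal to that of the Frobenius endomorphism of `Z`; this
polynomial is prime to the one whose value on `H(A)` lies in the part generated by divisors, and
the difference of the two correspondences is nilpotent. So the Chow groups of `A × Z` are the
direct sum of the products of finitely many products of divisors on `A` with the Chow groups of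
`Z`; if the cycle class maps are injective for `Z`, they are so for `A × Z`, and for all varieties
dominated by `A × Z`. Finally, Murre's conjectures hold for all motives of a class of varieties
over a finite field, closed under products, if and only if the cycle class maps are injective.
Indeed, if they are injective, then the Kunneth projectors (polynomials in Frobenius, by Katz and
Messing) are idempotents in the Chow groups, and one obtains (A) and the middle case of (D), so all
four conjectures by the theorem of helper69. Conversely, (A) and (D) imply that homologically
trivial self-correspondences are nilpotent; let `M_j` be a part of weight `j ≠ 2 i`. A polynomial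
in Frobenius which vanishes on `H^j(M)` is nilpotent on `M_j` and acts on `CH^i(M_j)` as a number,
which is not zero, as `Q ^ i` has another weight. So `CH^i(M_j) = 0`, and the homologically trivial
classes in `CH^i(M_(2 i))` are zero by (D).
-/

set_option autoImplicit false

namespace Pool.Agent.Results.MP_38de51_ag.ProductsAllCMTypes

open NumberField Module Pool.Agent.H204R3.CM Pool.Agent.H977R3.CM Pool.Agent.TH170
  Pool.Agent.Y1.KN Pool.Agent.Y1.CT Pool.Agent.Q64.L Pool.Agent.Q64.B

/-- The statement `MurreReduces` holds for all abelian varieties `A` whose Frobenius eigenvalues
are powers of conjugates of Weil numbers with the slope types `Φ i`, `M i`, and all varieties `Z`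
unrelated to the fields `K i`. -/
def Holds {p : ℕ} [Fact p.Prime] (ν : PadicAlgCl p ≃+* ℂ) {I : Type} (K : I → Type)
    [∀ i, Field (K i)] [∀ i, NumberField (K i)] [∀ i, IsCMField (K i)]
    (M : ∀ i, (K i →+* ℂ) → ℤ) (Φ : ∀ i, Set (K i →+* ℂ)) : Prop :=
  ForAllTypes ν K M (fun q f => MurreReduces (UnrelatedRoots K) q f) Φ

/-- The exceptional families of CM types. -/
def exceptionalFamilies {p : ℕ} [Fact p.Prime] (ν : PadicAlgCl p ≃+* ℂ) {I : Type} (K : I → Type)
    [∀ i, Field (K i)] [∀ i, NumberField (K i)] [∀ i, IsCMField (K i)]
    (M : ∀ i, (K i →+* ℂ) → ℤ) : Set (∀ i, Set (K i →+* ℂ)) :=
  {Φ | (∀ i, IsCMType (Φ i)) ∧ ¬ Holds ν K M Φ}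

/-- **Murre's conjectures are true for all motives of a class `𝒱` of varieties dominated by
products `A × Z`, `Z` in the subclass `𝒲`, if and only if they are true for all motives of `𝒲`, for
the abelian varieties `A` of almost all slope types of all CM fields and all unrelated varieties
`Z`.** -/
theorem result :
    ∃ C : ℝ, 0 ≤ C ∧ ∀ (p : ℕ) [Fact p.Prime] (ν : PadicAlgCl p ≃+* ℂ) (I : Type) [Fintype I]
      (K : I → Type) [∀ i, Field (K i)] [∀ i, NumberField (K i)] [∀ i, IsCMField (K i)]
      (M : ∀ i, (K i →+* ℂ) → ℤ) (n g q : I → ℕ) (D : I → ℝ), PairwiseIndep K →
      (∀ i φ, M i (ComplexEmbedding.conjugate φ) = M i φ) → (∀ i, n i ≠ 0) →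
      (∀ i φ, M i φ ∣ (n i : ℤ)) → (∀ i, finrank ℚ (K i) = 2 * g i) →
      (∀ i, q i ∣ g i ∧ (q i = 1 ∨ (q i).Prime)) → (∀ i, 1 ≤ D i) →
      (∀ (i : I) (L : IntermediateField ℚ (K i)), IsCMField L → IsGalois ℚ L →
        ¬ IsAbelianGalois ℚ L → (finrank ℚ L : ℝ) ≤ D i) →
      ((exceptionalFamilies ν K M).ncard : ℝ) ≤
        2 ^ (∑ i, g i) * ∑ i, C * (n i : ℝ) ^ 2 * ((1 + Real.log (2 * g i)) ^ 16 *
          min ((numCMSubfields (K i) : ℝ) ^ 2 * D i ^ (1 / 4 : ℝ) / √(g i)) (√(g i) / q i)) := by
  obtain ⟨C, hC0, hC⟩ := countC
  refine ⟨C, hC0, ?_⟩
  intro p _ ν I _ K _ _ _ M n g q D hind hM hn hMn hg hq hD hDF
  exact hC p ν I K M n g q D hind hM hn hMn hg hq hD hDF _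
    fun Q f hQ hG => murreReduces hQ hG

end Pool.Agent.Results.MP_38de51_ag.ProductsAllCMTypes
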