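import Mathlib
import Pool.Agent.Q64.B.Mur
import Pool.Agent.Q64.L.InstA

/-!
# Murre's conjectures for the motives of classes of varieties over finite fields: almost all
abelian varieties

Let `g i` (`i` in a finite set `I`) be positive integers, `r` an integer smaller than all the `g i`
and `E` a number field. For a prime power `q` let `S i` be the set of the characteristic
polynomials of Frobenius of the ordinary abelian varieties of dimension `g i` over the field with
`q` elements, or of all abelian varieties of dimension `g i`, or any set in between. By Weil, Honda
and Tate its elements correspond to the isogeny classes, the first set contains
`ordinaryWeilPolys q (g i)`, and the second one is contained in `weilPolys q (g i)`.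

For almost all families `f i` in `S i` (`AlmostAll`: with the exception of a proportion
`O (q ^ (-1 / 6) log q)`, the constant depending only on `g`, `r` and `E`) the following is true.
We consider the abelian varieties `A` over the field with `Q = q ^ s` elements (`s > 0` fixed)
which are isogenous to products of powers of abelian varieties coming from the field with `q`
elements, with characteristic polynomials `f i`. Let `𝒱` be **any** class of smooth projective
varieties over the field with `Q` elements which is closed under products and `𝒲` **any** subclass,
closed under products, such that each variety of the class `𝒱` is dominated by a product `A × Z`,
where `A` is a variety of this kind in the class `𝒱`, where `Z` belongs to `𝒲`, and where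

* the eigenvalues `ρ` of Frobenius on the cohomology of `Z` and their conjugates are in a group of
  rank at most `r` over `E` (`RootsRank`): there are nonzero numbers `u 1, ..., u r` such that each
  `ρ` has a power which is the product of a nonzero element of `E` and of integral powers of
  `u 1, ..., u r`.

**Murre's conjectures (A), (B), (C), (D) are true for all motives `(X, p, n)` with `X` in the class
`𝒱` if and only if they are true for all motives `(Z, p, n)` with `Z` in the class `𝒲`.** So Q1,
restricted to the motives of varieties in `𝒱`, is equivalent to Q1, restricted to the motives of
varieties in `𝒲`: the abelian varieties `A` may be removed. For instance, `𝒲` may be the class of
the powers of one variety, and `𝒱` the class of all varieties dominated by products `A × Z`, `Z` in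
`𝒲`. No case of the conjectures of Tate, Beilinson, Murre is assumed.

Here `IsChow`, `IsWeil`, `IsStandard`, `IsProjective` are the formal properties of the Chow groups
with rational coefficients and of a Weil cohomology theory `H` with coefficients in an
algebraically closed field, for the varieties of the class `𝒱` (`restrictWeil` is the restriction
of these data to `𝒲`), and `Murre` are the conjectures for the motive `(X, p)` (the twist `n` only
renumbers the groups). What is used besides are known theorems: `HasFrobenii` (the Frobenius
endomorphism acts on `CH^i` as multiplication by `Q ^ i`, and the weights of its eigenvalues on
`H^j`, by Deligne), `IsAbelian` (`H(A)` is generated by `H^1`, Frobenius is diagonalizable on `H^1`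
by Weil, and the theorem of Tate on divisors), and `kimura` (if rational and homological
equivalence coincide on all varieties of the class `𝒲`, the motives of the varieties of the class
`𝒱` are finite-dimensional, and homologically trivial self-correspondences are nilpotent).
`Dominated` says that there are a morphism `g : A × Z → X` and a class `w` on `A × Z` with
`g_* w = [X]`.

For `r = 0` the assumption on the eigenvalues says that they and their conjugates have powers in
`E`. If for instance a factor of this kind over the field with `q'` elements is given, one can take
for `E` the field generated by the Frobenius eigenvalues and their conjugates, and apply the
theorem to the powers `q` of `q'`.

Relation to other results. The theorem of helper69 on this problem (`AllFromMiddleD`, this folder)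
is about all base fields; it reduces (A), (B), (C), (D) to (A) and a case of (D), and it is used
here. `ProductsAllCMTypes` (this folder) is about the abelian varieties of almost all slope types
of given CM fields. Over finite fields the conjectures of Murre for a class of varieties are
equivalent to the existence of a Bloch-Beilinson filtration, and to the injectivity of the cycle
class maps; the theorem for filtrations is in MP_f4876d_ag, the one for rational and homological
equivalence and single products is from MP_4960c7_ag. New here are the passage from the injectivity
to the conjectures of Murre for all motives and back, for arbitrary classes, and the theorem above.

The proof. By a sieve (helper521), which only uses the primes that split completely in the Galois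
closure of `E` - these have positive density by the theorem of Chebotarev, formalized by helper401
- almost all families are such that each pair `α`, `q / α` of roots can be exchanged by a Galois
automorphism which fixes all the other roots of all the `f i` and also all elements of `E`. So a
multiplicative relation between `ρ`, a power of `q` and roots of the `f i`, other than those which
follow from `α (q / α) = q`, would make the roots of one `f i` generate a group of rank at most
`r < g i` modulo `E`, up to powers, which is impossible. It follows that the correspondence on `A`
given by the sum of the products of dual classes of divisor products acts as the identity on the
Chow groups of `A × Z`, if homologically trivial self-correspondences of `A × Z` are nilpotent: the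
Frobenius endomorphism of `A × Z` is the multiplication by `Q ^ i` on `CH^i`, so that the Frobenius
endomorphism of `A` satisfies a power of the polynomial reciprocal to that of the Frobenius
endomorphism of `Z`; this polynomial is prime to the one whose value on `H(A)` lies in the part
generated by divisors, and the difference of the two correspondences is nilpotent. So the Chow
groups of `A × Z` are the direct sum of the products of finitely many products of divisors on `A`
with the Chow groups of `Z`; if the cycle class maps are injective for `Z`, they are so for
`A × Z`, and for all varieties dominated by `A × Z`. Finally, Murre's conjectures hold for all
motives of a class of varieties over a finite field, closed under products, if and only if the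
cycle class maps are injective. Indeed, if they are injective, then the Kunneth projectors
(polynomials in Frobenius, by Katz and Messing) are idempotents in the Chow groups, and one obtains
(A) and the middle case of (D), so all four conjectures by the theorem of helper69. Conversely, (A)
and (D) imply that homologically trivial self-correspondences are nilpotent; let `M_j` be a part of
weight `j ≠ 2 i`. A polynomial in Frobenius which vanishes on `H^j(M)` is nilpotent on `M_j` and
acts on `CH^i(M_j)` as a number, which is not zero, as `Q ^ i` has another weight. So
`CH^i(M_j) = 0`, and the homologically trivial classes in `CH^i(M_(2 i))` are zero by (D).
-/

set_option autoImplicit false

namespace Pool.Agent.Results.MP_38de51_ag.ProductsAlmostAll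

open Pool.Agent.Y156.L Pool.Agent.Q64.L Pool.Agent.Q64.B

/-- **Murre's conjectures are true for all motives of a class `𝒱` of varieties dominated by
products `A × Z`, `Z` in the subclass `𝒲`, if and only if they are true for all motives of `𝒲`, for
almost all abelian varieties `A` and all varieties `Z` of small Frobenius rank.** -/
theorem result {I : Type} [Fintype I] (g : I → ℕ) (r : ℕ) (hr : ∀ i, r < g i)
    (E : IntermediateField ℚ ℂ) [FiniteDimensional ℚ E] :
    AlmostAll g fun q F => MurreReduces (RootsRank E r) q F :=
  countA g r hr E (fun q F => MurreReduces (RootsRank E r) q F)
    fun _ _ hq hG => murreReduces hq hG

end Pool.Agent.Results.MP_38de51_ag.ProductsAlmostAll
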