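import Mathlib
import Pool.Agent.Q64.B.Mur
import Pool.Agent.Q64.N.Main

/-!
# Murre's conjectures for the motives of classes of varieties over finite fields: abelian
varieties: Newton strata

Fix a prime number `p` and a nonempty finite set `κ`. For `i` in `κ` let `g i` be a dimension and
let `sl i j`, `j < g i`, be rational numbers between `0` and `1 / 2` such that the `sl i j` and
`1 - sl i j` are the slopes of a symmetric Newton polygon with integral break points (`IsNewton`)
which is not the supersingular one, that is `sl i j < 1 / 2` for some `j`. Let `r` be an integer
smaller than all the `g i`, and let `E` be a number field. By the theorem of Honda and Tate,
`Stratum g sl p a` is the set of the families of isogeny classes of abelian varieties of dimensions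
`g i` over the field with `q = p ^ a` elements with these Newton polygons; it consists of the
families `f i` of the characteristic polynomials of Frobenius.

As `a → ∞`, the number of the families in `Stratum g sl p a` tends to infinity, and **the
proportion of those families for which the following is true tends to one**: for all `N` and
`ε > 0` there is an `a₀` such that for `a ≥ a₀` there are at least `N` families, and at most `ε`
times their number are exceptions.

We consider the abelian varieties `A` over the field with `Q = q ^ s` elements (`s > 0` fixed)
which are isogenous to products of powers of abelian varieties coming from the field with `q`
elements, with characteristic polynomials `f i`. Let `𝒱` be **any** class of smooth projective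
varieties over the field with `Q` elements which is closed under products and `𝒲` **any** subclass,
closed under products, such that each variety of the class `𝒱` is dominated by a product `A × Z`,
where `A` is a variety of this kind in the class `𝒱`, where `Z` belongs to `𝒲`, and where

* the eigenvalues `ρ` of Frobenius on the cohomology of `Z` and their conjugates are in a group of
  rank at most `r` over `E` (`RootsRank`): there are nonzero numbers `u 1, ..., u r` such that each
  `ρ` has a power which is the product of a nonzero element of `E` and of integral powers of
  `u 1, ..., u r`.

**Murre's conjectures (A), (B), (C), (D) are true for all motives `(X, p, n)` with `X` in the class
`𝒱` if and only if they are true for all motives `(Z, p, n)` with `Z` in the class `𝒲`.** So Q1,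
restricted to the motives of varieties in `𝒱`, is equivalent to Q1, restricted to the motives of
varieties in `𝒲`: the abelian varieties `A` may be removed. For instance, `𝒲` may be the class of
the powers of one variety, and `𝒱` the class of all varieties dominated by products `A × Z`, `Z` in
`𝒲`. No case of the conjectures of Tate, Beilinson, Murre is assumed.

Here `IsChow`, `IsWeil`, `IsStandard`, `IsProjective` are the formal properties of the Chow groups
with rational coefficients and of a Weil cohomology theory `H` with coefficients in an
algebraically closed field, for the varieties of the class `𝒱` (`restrictWeil` is the restriction
of these data to `𝒲`), and `Murre` are the conjectures for the motive `(X, p)` (the twist `n` only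
renumbers the groups). What is used besides are known theorems: `HasFrobenii` (the Frobenius
endomorphism acts on `CH^i` as multiplication by `Q ^ i`, and the weights of its eigenvalues on
`H^j`, by Deligne), `IsAbelian` (`H(A)` is generated by `H^1`, Frobenius is diagonalizable on `H^1`
by Weil, and the theorem of Tate on divisors), and `kimura` (if rational and homological
equivalence coincide on all varieties of the class `𝒲`, the motives of the varieties of the class
`𝒱` are finite-dimensional, and homologically trivial self-correspondences are nilpotent).
`Dominated` says that there are a morphism `g : A × Z → X` and a class `w` on `A × Z` with
`g_* w = [X]`.

For `r = 0` the assumption on the eigenvalues says that they and their conjugates have powers in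
`E`. If for instance a factor of this kind over the field with `q' = p ^ b` elements is given, one
can take for `E` the field generated by the Frobenius eigenvalues and their conjugates, and apply
the theorem to the fields with `q = p ^ a` elements, `b | a`. A supersingular abelian variety may
always be added to the other factor.

Relation to other results. The theorem of helper69 on this problem (`AllFromMiddleD`, this folder)
is about all base fields; it reduces (A), (B), (C), (D) to (A) and a case of (D), and it is used
here. `ProductsAlmostAll` (this folder) is about almost all abelian varieties of given dimensions.
Almost all of these are ordinary, and each other Newton polygon belongs to a proportion of the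
isogeny classes which tends to zero; so that theorem says nothing about any Newton polygon which is
not ordinary. Here the characteristic and the Newton polygons are given. The count of the families
in a stratum is that of helper518 (`NewtonStrata`, MP_ee618e_ag, where it is applied to the Tate
conjecture for the products of the abelian varieties in the stratum and supersingular ones). Over
finite fields the conjectures of Murre for a class of varieties are equivalent to the existence of
a Bloch-Beilinson filtration, and to the injectivity of the cycle class maps; the theorem for
filtrations is in MP_f4876d_ag, the one for rational and homological equivalence and single
products is from MP_4960c7_ag. New here are the passage from the injectivity to the conjectures of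
Murre for all motives and back, for arbitrary classes, and the theorem above.

The proof. The elements of the stratum correspond to integral points in a box whose sides tend to
infinity: the coefficients of the trace polynomials, divided by the powers of `p` prescribed by the
Newton polygons (helper518). We apply the sieve only with primes which split completely in the
Galois closure of `E`; there are infinitely many (Chebotarev, formalized by helper401). So for
almost all families the trace polynomials are irreducible, and each pair `α`, `q / α` of roots can
be exchanged by a Galois automorphism which fixes all the other roots of all the `f i` and all
elements of `E`. No root is supersingular, as some slope is smaller than `1 / 2`. A multiplicative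
relation between `ρ`, a power of `q` and roots of the `f i`, other than those which follow from
`α (q / α) = q`, expresses some power of `α ^ 2 / q`, for all roots `α` of one `f i`, by conjugates
of `ρ`; by the automorphisms above these `g i > r` numbers are multiplicatively independent, also
modulo `E`, which is a contradiction. It follows that the correspondence on `A` given by the sum of
the products of dual classes of divisor products acts as the identity on the Chow groups of
`A × Z`, if homologically trivial self-correspondences of `A × Z` are nilpotent: the Frobenius
endomorphism of `A × Z` is the multiplication by `Q ^ i` on `CH^i`, so that the Frobenius
endomorphism of `A` satisfies a power of the polynomial reciprocal to that of the Frobenius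
endomorphism of `Z`; this polynomial is prime to the one whose value on `H(A)` lies in the part
generated by divisors, and the difference of the two correspondences is nilpotent. So the Chow
groups of `A × Z` are the direct sum of the products of finitely many products of divisors on `A`
with the Chow groups of `Z`; if the cycle class maps are injective for `Z`, they are so for
`A × Z`, and for all varieties dominated by `A × Z`. Finally, Murre's conjectures hold for all
motives of a class of varieties over a finite field, closed under products, if and only if the
cycle class maps are injective. Indeed, if they are injective, then the Kunneth projectors
(polynomials in Frobenius, by Katz and Messing) are idempotents in the Chow groups, and one obtains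
(A) and the middle case of (D), so all four conjectures by the theorem of helper69. Conversely, (A)
and (D) imply that homologically trivial self-correspondences are nilpotent; let `M_j` be a part of
weight `j ≠ 2 i`. A polynomial in Frobenius which vanishes on `H^j(M)` is nilpotent on `M_j` and
acts on `CH^i(M_j)` as a number, which is not zero, as `Q ^ i` has another weight. So
`CH^i(M_j) = 0`, and the homologically trivial classes in `CH^i(M_(2 i))` are zero by (D).
-/

set_option autoImplicit false

namespace Pool.Agent.Results.MP_38de51_ag.ProductsNewtonStrata

open Polynomial Pool.Agent.Q64.N Pool.Agent.Q64.B
open Pool.Agent.Q64.L (RootsRank)

/-- **Murre's conjectures are true for all motives of a class `𝒱` of varieties dominated by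
products `A × Z`, `Z` in the subclass `𝒲`, if and only if they are true for all motives of `𝒲`, for
all varieties `Z` whose Frobenius eigenvalues and their conjugates are of rank at most `r` over
`E`, for almost all families of abelian varieties in each Newton stratum over the fields of
characteristic `p`.** -/
theorem result {κ : Type} [Fintype κ] [Nonempty κ] (p : ℕ) [Fact p.Prime]
    -- dimensions and Newton polygons
    (g : κ → ℕ) (sl : ∀ i, Fin (g i) → ℚ) (hsl : ∀ i, IsNewton (sl i))
    (hss : ∀ i, ∃ j, sl i j < 1 / 2)
    -- the rank and the number field
    (r : ℕ) (hr : ∀ i, r < g i) (E : IntermediateField ℚ ℂ) [FiniteDimensional ℚ E]
    -- a number of families, a proportion of exceptions
    (N : ℕ) (ε : ℝ) (hε : 0 < ε) :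
    ∃ a₀ : ℕ, ∀ a, a₀ ≤ a →
      (Stratum g sl p a).Finite ∧ N ≤ (Stratum g sl p a).ncard ∧
      ({f ∈ Stratum g sl p a | ¬ MurreReduces (RootsRank E r) (p ^ a) f}.ncard : ℝ) ≤
        ε * ((Stratum g sl p a).ncard : ℝ) :=
  strata p g sl hsl hss r hr E (fun a f => MurreReduces (RootsRank E r) (p ^ a) f)
    (fun _ _ _ hq hG => murreReduces hq hG) N ε hε

end Pool.Agent.Results.MP_38de51_ag.ProductsNewtonStrata
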